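import Mathlib

/-!
# Project S9, block G: triangular submodules and representative functions

`Lam` is a subgroup of `Kˣ`. A submodule of a representation of the group `H` is triangular if it has a
filtration by invariant submodules such that `H` acts on the quotients by functions `H → Lam`. A function
`f : H → K` is representative if it is in a triangular space of functions, for the right translations.
-/

set_option autoImplicit false

namespace Pool.Agent.S9

open Submodule

variable {K : Type*} [Field K]

/-! ### Triangular submodules -/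

section TriS

variable {H : Type*} [Group H] {X : Type*} [AddCommGroup X] [Module K X]

/-- Triangular submodules: they are obtained from `0` by adding vectors which are multiplied by elements
of `Lam` modulo the smaller submodule. -/
inductive TriS (Lam : Subgroup Kˣ) (ρ : Representation K H X) : Submodule K X → Prop
  | bot : TriS Lam ρ ⊥
  | step (F : Submodule K X) (f : X) (lam : H →* Kˣ) (hl : ∀ g, lam g ∈ Lam)
      (h : ∀ g, ρ g f - (lam g : K) • f ∈ F) (hF : TriS Lam ρ F) : TriS Lam ρ (F ⊔ span K {f})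

variable {Lam : Subgroup Kˣ} {ρ : Representation K H X}

theorem TriS.stable {F : Submodule K X} (hF : TriS Lam ρ F) : ∀ g, ∀ x ∈ F, ρ g x ∈ F := by
  induction hF with
  | bot =>
    intro g x hx
    rw [mem_bot] at hx
    rw [hx, map_zero]
    exact zero_mem _
  | step F f lam _ h _ ih =>
    intro g x hx
    obtain ⟨y, hy, z, hz, rfl⟩ := mem_sup.1 hx
    obtain ⟨c, rfl⟩ := mem_span_singleton.1 hz
    rw [map_add, map_smul]
    have e : ρ g f = (ρ g f - (lam g : K) • f) + (lam g : K) • f := by abel
    rw [e]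
    refine add_mem (mem_sup_left (ih g y hy)) (smul_mem _ _ (add_mem (mem_sup_left (h g)) ?_))
    exact mem_sup_right (smul_mem _ _ (mem_span_singleton_self f))

theorem TriS.fg {F : Submodule K X} (hF : TriS Lam ρ F) : F.FG := by
  induction hF with
  | bot => exact fg_bot
  | step F f _ _ _ _ ih => exact ih.sup (fg_span_singleton f)

theorem TriS.sup {F F' : Submodule K X} (hF : TriS Lam ρ F) (hF' : TriS Lam ρ F') :
    TriS Lam ρ (F ⊔ F') := by
  induction hF' with
  | bot => rwa [sup_bot_eq]
  | step F' f lam hl h _ ih =>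
    rw [← sup_assoc]
    exact TriS.step _ f lam hl (fun g => mem_sup_right (h g)) ih

/-- images under maps which are equivariant for a homomorphism -/
theorem TriS.map {H' : Type*} [Group H'] {Y : Type*} [AddCommGroup Y] [Module K Y]
    {σ : Representation K H' Y} (φ : H' →* H) (L : X →ₗ[K] Y)
    (hL : ∀ g x, σ g (L x) = L (ρ (φ g) x)) {F : Submodule K X} (hF : TriS Lam ρ F) :
    TriS Lam σ (F.map L) := by
  induction hF with
  | bot =>
    rw [Submodule.map_bot]
    exact TriS.bot
  | step F f lam hl h _ ih =>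
    rw [Submodule.map_sup, map_span, Set.image_singleton]
    refine TriS.step _ (L f) (lam.comp φ) (fun g => hl _) (fun g => ?_) ih
    rw [hL, ← map_smul, ← map_sub]
    exact mem_map_of_mem (h _)

/-- invariant submodules of triangular submodules -/
theorem TriS.sub {F : Submodule K X} (hF : TriS Lam ρ F) : ∀ F' : Submodule K X, F' ≤ F →
    (∀ g, ∀ x ∈ F', ρ g x ∈ F') → TriS Lam ρ F' := by
  induction hF with
  | bot =>
    intro F' hle _
    rw [le_bot_iff.1 hle]
    exact TriS.bot
  | step F f lam hl h hF ih =>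
    intro F' hle hst
    have h1 := ih (F' ⊓ F) inf_le_right fun g x hx => ⟨hst g x hx.1, hF.stable g x hx.2⟩
    by_cases hc : F' ≤ F
    · rwa [inf_of_le_left hc] at h1
    obtain ⟨x, hx, hxF⟩ := SetLike.not_le_iff_exists.1 hc
    obtain ⟨y, hy, z, hz, hyz⟩ := mem_sup.1 (hle hx)
    obtain ⟨c, rfl⟩ := mem_span_singleton.1 hz
    have hc0 : c ≠ 0 := by
      rintro rfl
      rw [zero_smul, add_zero] at hyz
      exact hxF (hyz ▸ hy)
    have e : F' = (F' ⊓ F) ⊔ span K {x} := by
      apply le_antisymm
      · intro w hw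
        obtain ⟨y', hy', z', hz', hyz'⟩ := mem_sup.1 (hle hw)
        obtain ⟨c', rfl⟩ := mem_span_singleton.1 hz'
        refine mem_sup.2 ⟨w - (c' * c⁻¹) • x, ⟨sub_mem hw (smul_mem _ _ hx), ?_⟩, (c' * c⁻¹) • x,
          smul_mem _ _ (mem_span_singleton_self x), sub_add_cancel _ _⟩
        have : w - (c' * c⁻¹) • x = y' - (c' * c⁻¹) • y := by
          rw [← hyz, ← hyz', smul_add, smul_smul, inv_mul_cancel_right₀ hc0]
          abel
        rw [this]
        exact sub_mem hy' (smul_mem _ _ hy)
      · exact sup_le inf_le_left ((span_singleton_le_iff_mem _ _).2 hx)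
    rw [e]
    refine TriS.step _ x lam hl (fun g => ⟨sub_mem (hst g x hx) (smul_mem _ _ hx), ?_⟩) h1
    rw [← hyz, map_add, map_smul, smul_add]
    have : ρ g y + c • ρ g f - ((lam g : K) • y + (lam g : K) • c • f) =
        (ρ g y - (lam g : K) • y) + c • (ρ g f - (lam g : K) • f) := by
      rw [smul_sub, smul_comm c (lam g : K) f]
      abel
    rw [this]
    exact add_mem (sub_mem (hF.stable g y hy) (smul_mem _ _ hy)) (smul_mem _ _ (h g))

/-- the span of a triangular family -/
theorem TriS.family {ι : Type*} [Finite ι] (rk : ι → ℕ) (u : ι → X) (lam : ι → H →* Kˣ)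
    (hl : ∀ i g, lam i g ∈ Lam)
    (h : ∀ i g, ρ g (u i) - (lam i g : K) • u i ∈ span K (u '' {k | rk k < rk i})) :
    TriS Lam ρ (span K (Set.range u)) := by
  classical
  have := Fintype.ofFinite ι
  have key : ∀ r : ℕ, TriS Lam ρ (span K (u '' {k | rk k < r})) := by
    intro r
    induction r with
    | zero =>
      have : {k : ι | rk k < 0} = ∅ := by
        ext k
        simp
      rw [this, Set.image_empty, span_empty]
      exact TriS.bot
    | succ r ih =>
      have step : ∀ s : Finset ι, (∀ k ∈ s, rk k = r) →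
          TriS Lam ρ (span K (u '' {k | rk k < r}) ⊔ span K (u '' (s : Set ι))) := by
        intro s
        induction s using Finset.induction_on with
        | empty =>
          intro _
          rw [Finset.coe_empty, Set.image_empty, span_empty, sup_bot_eq]
          exact ih
        | insert i s _ ihs =>
          intro hs
          have e : span K (u '' {k | rk k < r}) ⊔ span K (u '' ((insert i s : Finset ι) : Set ι)) =
              (span K (u '' {k | rk k < r}) ⊔ span K (u '' (s : Set ι))) ⊔ span K {u i} := by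
            rw [Finset.coe_insert, Set.image_insert_eq, span_insert, sup_assoc,
              sup_comm (span K {u i})]
          rw [e]
          refine TriS.step _ _ (lam i) (hl i) (fun g => mem_sup_left ?_)
            (ihs fun k hk => hs k (Finset.mem_insert_of_mem hk))
          have := h i g
          rwa [hs i (Finset.mem_insert_self i s)] at this
      have e : {k | rk k < r + 1} = {k | rk k < r} ∪
          ((Finset.univ.filter fun k => rk k = r : Finset ι) : Set ι) := by
        ext k
        simp only [Set.mem_ofPred_eq, Set.mem_union, Finset.coe_filter, Finset.mem_univ, true_and]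
        omega
      rw [e, Set.image_union, span_union]
      exact step _ fun k hk => (Finset.mem_filter.1 hk).2
  have e : Set.range u = u '' {k | rk k < (Finset.univ.sup rk) + 1} := by
    rw [← Set.image_univ]
    congr 1
    ext k
    simp only [Set.mem_univ, Set.mem_ofPred_eq, true_iff]
    exact Nat.lt_succ_of_le (Finset.le_sup (f := rk) (Finset.mem_univ k))
  rw [e]
  exact key _

/-- a triangular basis -/
theorem TriS.exists_basis {F : Submodule K X} (hF : TriS Lam ρ F) :
    ∃ (n : ℕ) (f : Fin n → X) (lam : Fin n → H →* Kˣ), LinearIndependent K f ∧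
      span K (Set.range f) = F ∧ (∀ i g, lam i g ∈ Lam) ∧
      ∀ i g, ρ g (f i) - (lam i g : K) • f i ∈ span K (f '' {k | k < i}) := by
  induction hF with
  | bot =>
    refine ⟨0, Fin.elim0, Fin.elim0, linearIndependent_empty_type, ?_, fun i => i.elim0,
      fun i => i.elim0⟩
    rw [Set.range_eq_empty, span_empty]
  | step F f lam hl h hF ih =>
    obtain ⟨n, b, l, hb, hs, hl', ht⟩ := ih
    by_cases hf : f ∈ F
    · refine ⟨n, b, l, hb, ?_, hl', ht⟩
      rw [hs, eq_comm, sup_eq_left, span_singleton_le_iff_mem]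
      exact hf
    have hrange : Set.range (Fin.snoc b f : Fin (n + 1) → X) = insert f (Set.range b) :=
      Fin.range_snoc b f
    refine ⟨n + 1, Fin.snoc b f, Fin.snoc l lam, ?_, ?_, ?_, ?_⟩
    · rw [linearIndependent_finSnoc]
      exact ⟨hb, by rwa [hs]⟩
    · rw [hrange, span_insert, hs, sup_comm]
    · intro i
      refine Fin.lastCases ?_ (fun i => ?_) i
      · intro g
        rw [Fin.snoc_last]
        exact hl g
      · intro g
        rw [Fin.snoc_castSucc]
        exact hl' i g
    · intro i
      refine Fin.lastCases ?_ (fun i => ?_) i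
      · intro g
        rw [Fin.snoc_last, Fin.snoc_last]
        have h1 := h g
        rw [← hs] at h1
        refine span_mono ?_ h1
        rintro _ ⟨k, rfl⟩
        exact ⟨k.castSucc, Fin.castSucc_lt_last k, by rw [Fin.snoc_castSucc]⟩
      · intro g
        rw [Fin.snoc_castSucc, Fin.snoc_castSucc]
        refine span_mono ?_ (ht i g)
        rintro _ ⟨k, hk, rfl⟩
        exact ⟨k.castSucc, Fin.castSucc_lt_castSucc_iff.2 hk, by rw [Fin.snoc_castSucc]⟩

end TriS

/-! ### Representative functions -/

section Rep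

variable (K) (H : Type*) [Group H]

/-- the right translations of functions -/
def rt : Representation K H (H → K) where
  toFun g :=
    { toFun := fun f x => f (x * g)
      map_add' := fun _ _ => rfl
      map_smul' := fun _ _ => rfl }
  map_one' := by
    ext f x
    simp
  map_mul' g h := by
    ext f x
    simp [mul_assoc]

variable {K H}

theorem rt_apply (g : H) (f : H → K) (x : H) : rt K H g f x = f (x * g) := rfl

/-- the representative functions -/
def Orep (Lam : Subgroup Kˣ) (H : Type*) [Group H] : Submodule K (H → K) where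
  carrier := {f | ∃ F, TriS Lam (rt K H) F ∧ f ∈ F}
  zero_mem' := ⟨⊥, TriS.bot, zero_mem _⟩
  add_mem' := by
    rintro f f' ⟨F, h1, h2⟩ ⟨F', h3, h4⟩
    exact ⟨F ⊔ F', h1.sup h3, add_mem (mem_sup_left h2) (mem_sup_right h4)⟩
  smul_mem' := by
    rintro c f ⟨F, h1, h2⟩
    exact ⟨F, h1, smul_mem _ _ h2⟩

variable {Lam : Subgroup Kˣ}

theorem mem_Orep {f : H → K} : f ∈ Orep Lam H ↔ ∃ F, TriS Lam (rt K H) F ∧ f ∈ F := Iff.rfl

theorem Orep_rt {f : H → K} (hf : f ∈ Orep Lam H) (g : H) : (fun x => f (x * g)) ∈ Orep Lam H := by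
  obtain ⟨F, h1, h2⟩ := hf
  exact ⟨F, h1, h1.stable g f h2⟩

theorem Orep_comp {H' : Type*} [Group H'] (φ : H' →* H) {f : H → K} (hf : f ∈ Orep Lam H) :
    (fun x => f (φ x)) ∈ Orep Lam H' := by
  obtain ⟨F, h1, h2⟩ := hf
  refine ⟨F.map (LinearMap.funLeft K K φ), TriS.map φ _ (fun g f => ?_) h1,
    mem_map_of_mem (f := LinearMap.funLeft K K φ) h2⟩
  funext x
  rw [rt_apply, LinearMap.funLeft_apply, LinearMap.funLeft_apply, rt_apply, map_mul]

theorem Orep_lt {f : H → K} (hf : f ∈ Orep Lam H) (g : H) : (fun x => f (g * x)) ∈ Orep Lam H := by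
  obtain ⟨F, h1, h2⟩ := hf
  refine ⟨F.map (LinearMap.funLeft K K (fun x => g * x)),
    TriS.map (MonoidHom.id H) _ (fun y f => ?_) h1,
    mem_map_of_mem (f := LinearMap.funLeft K K (fun x => g * x)) h2⟩
  funext x
  rw [rt_apply, LinearMap.funLeft_apply, LinearMap.funLeft_apply, MonoidHom.id_apply, rt_apply,
    mul_assoc]

theorem Orep_const (c : K) : (fun _ => c) ∈ Orep Lam H := by
  refine ⟨⊥ ⊔ span K {fun _ => c}, TriS.step _ _ 1 (fun _ => one_mem _) (fun g => ?_)
    TriS.bot, mem_sup_right (mem_span_singleton_self _)⟩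
  rw [mem_bot]
  funext x
  simp [rt_apply]

private theorem mul_step {F G : Submodule K (H → K)} (hG : TriS Lam (rt K H) G) {f : H → K}
    {lam : H →* Kˣ} (hl : ∀ g, lam g ∈ Lam) (h : ∀ g, rt K H g f - (lam g : K) • f ∈ F)
    (hFG : TriS Lam (rt K H) (F * G)) : ∀ G' : Submodule K (H → K), TriS Lam (rt K H) G' → G' ≤ G →
      TriS Lam (rt K H) (F * G ⊔ span K {f} * G') := by
  intro G' hG'
  induction hG' with
  | bot =>
    intro _
    rwa [Submodule.mul_bot, sup_bot_eq]
  | step G' g mu hm hg _ ih =>
    intro hle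
    have hg' : g ∈ G := hle (mem_sup_right (mem_span_singleton_self g))
    rw [Submodule.mul_sup, ← sup_assoc, span_mul_span, Set.singleton_mul_singleton]
    refine TriS.step _ (f * g) (lam * mu) (fun x => mul_mem (hl x) (hm x))
      (fun x => ?_) (ih (le_sup_left.trans hle))
    have e : rt K H x (f * g) - (((lam * mu) x : Kˣ) : K) • (f * g) =
        (rt K H x f - (lam x : K) • f) * rt K H x g +
          ((lam x : K) • f) * (rt K H x g - (mu x : K) • g) := by
      funext y
      simp only [rt_apply, Pi.sub_apply, Pi.mul_apply, Pi.smul_apply, Pi.add_apply, smul_eq_mul,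
        MonoidHom.mul_apply, Units.val_mul]
      ring
    rw [e]
    refine add_mem (mem_sup_left (mul_mem_mul (h x) (hG.stable x g hg'))) (mem_sup_right ?_)
    exact mul_mem_mul (smul_mem _ _ (mem_span_singleton_self f)) (hg x)

theorem TriS.mul {F G : Submodule K (H → K)} (hF : TriS Lam (rt K H) F) (hG : TriS Lam (rt K H) G) :
    TriS Lam (rt K H) (F * G) := by
  induction hF with
  | bot =>
    rw [Submodule.bot_mul]
    exact TriS.bot
  | step F f lam hl h _ ih =>
    rw [Submodule.sup_mul]
    exact mul_step hG hl h ih G hG le_rfl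

theorem Orep_mul {f f' : H → K} (hf : f ∈ Orep Lam H) (hf' : f' ∈ Orep Lam H) :
    (fun x => f x * f' x) ∈ Orep Lam H := by
  obtain ⟨F, h1, h2⟩ := hf
  obtain ⟨F', h3, h4⟩ := hf'
  exact ⟨F * F', h1.mul h3, mul_mem_mul h2 h4⟩

/-- a representative function modulo representative functions -/
theorem Orep_of_step {f : H → K} {lam : H →* Kˣ} (hl : ∀ g, lam g ∈ Lam) {F : Submodule K (H → K)}
    (hF : TriS Lam (rt K H) F) (h : ∀ g, rt K H g f - (lam g : K) • f ∈ F) : f ∈ Orep Lam H :=
  ⟨F ⊔ span K {f}, TriS.step F f lam hl h hF, mem_sup_right (mem_span_singleton_self f)⟩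

/-- finitely many representative functions are in one triangular space -/
theorem exists_triO {ι : Type*} [Finite ι] (f : ι → H → K) (hf : ∀ i, f i ∈ Orep Lam H) :
    ∃ F, TriS Lam (rt K H) F ∧ ∀ i, f i ∈ F := by
  classical
  have := Fintype.ofFinite ι
  have key : ∀ s : Finset ι, ∃ F, TriS Lam (rt K H) F ∧ ∀ i ∈ s, f i ∈ F := by
    intro s
    induction s using Finset.induction_on with
    | empty => exact ⟨⊥, TriS.bot, fun i hi => absurd hi (Finset.notMem_empty i)⟩
    | insert i s _ ih =>
      obtain ⟨F, h1, h2⟩ := ih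
      obtain ⟨F', h3, h4⟩ := hf i
      refine ⟨F ⊔ F', h1.sup h3, fun k hk => ?_⟩
      rcases Finset.mem_insert.1 hk with rfl | hk
      · exact mem_sup_right h4
      · exact mem_sup_left (h2 k hk)
  obtain ⟨F, h1, h2⟩ := key Finset.univ
  exact ⟨F, h1, fun i => h2 i (Finset.mem_univ i)⟩

end Rep

/-! ### The matrix of a triangular basis -/

section Mat

variable {H : Type*} [Group H] {X : Type*} [AddCommGroup X] [Module K X] {Lam : Subgroup Kˣ}
  {ρ : Representation K H X}

/-- The matrix `a g` of `ρ g` for the triangular basis `f`. -/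
structure TMat (Lam : Subgroup Kˣ) (ρ : Representation K H X) {n : ℕ} (f : Fin n → X)
    (a : H → Fin n → Fin n → K) : Prop where
  li : LinearIndependent K f
  apply : ∀ g i, ρ g (f i) = ∑ j, a g j i • f j
  tri : ∀ g j i, i < j → a g j i = 0
  diag : ∀ i, ∃ lam : H →* Kˣ, (∀ g, lam g ∈ Lam) ∧ ∀ g, a g i i = (lam g : K)

theorem TriS.exists_tmat {F : Submodule K X} (hF : TriS Lam ρ F) :
    ∃ (n : ℕ) (f : Fin n → X) (a : H → Fin n → Fin n → K), TMat Lam ρ f a ∧
      span K (Set.range f) = F := by
  obtain ⟨n, f, lam, hf, hs, hl, ht⟩ := hF.exists_basis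
  have hex : ∀ g i, ∃ c : Fin n → K, ρ g (f i) = ∑ j, c j • f j ∧ (∀ j, i < j → c j = 0) ∧
      c i = lam i g := by
    intro g i
    have h1 := ht i g
    rw [Finsupp.mem_span_image_iff_linearCombination] at h1
    obtain ⟨l, hl1, hl2⟩ := h1
    refine ⟨fun j => l j + if j = i then (lam i g : K) else 0, ?_, fun j hj => ?_, ?_⟩
    · simp only [add_smul, Finset.sum_add_distrib, ite_smul, zero_smul, Finset.sum_ite_eq',
        Finset.mem_univ, if_true]
      rw [← sub_eq_iff_eq_add, ← hl2, Finsupp.linearCombination_apply, Finsupp.sum_fintype]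
      intro j
      rw [zero_smul]
    · simp only [if_neg hj.ne', add_zero]
      by_contra hne
      have := hl1 (Finsupp.mem_support_iff.2 hne)
      exact absurd this (not_lt.2 hj.le)
    · simp only [if_true]
      have : l i = 0 := by
        by_contra hne
        have := hl1 (Finsupp.mem_support_iff.2 hne)
        exact absurd this (lt_irrefl i)
      rw [this, zero_add]
  choose c hc1 hc2 hc3 using hex
  exact ⟨n, f, fun g j i => c g i j, ⟨hf, hc1, fun g j i h => hc2 g i j h,
    fun i => ⟨lam i, hl i, fun g => hc3 g i⟩⟩, hs⟩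

variable {n : ℕ} {f : Fin n → X} {a : H → Fin n → Fin n → K}

theorem TMat.eq_of_sum (h : TMat Lam ρ f a) {c c' : Fin n → K}
    (hc : ∑ j, c j • f j = ∑ j, c' j • f j) : c = c' := by
  have h1 : ∑ j, (c j - c' j) • f j = 0 := by
    simp only [sub_smul, Finset.sum_sub_distrib, hc, sub_self]
  funext j
  have := Fintype.linearIndependent_iff.1 h.li _ h1 j
  exact sub_eq_zero.1 this

theorem TMat.mul (h : TMat Lam ρ f a) (g g' : H) (j i : Fin n) :
    a (g * g') j i = ∑ k, a g j k * a g' k i := by
  have e : ∑ j, a (g * g') j i • f j = ∑ j, (∑ k, a g j k * a g' k i) • f j := by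
    rw [← h.apply, map_mul]
    change ρ g (ρ g' (f i)) = _
    rw [h.apply g' i, map_sum]
    simp only [map_smul, h.apply g, Finset.smul_sum, smul_smul, Finset.sum_smul]
    rw [Finset.sum_comm]
    refine Finset.sum_congr rfl fun j _ => Finset.sum_congr rfl fun k _ => ?_
    rw [mul_comm]
  exact congrFun (h.eq_of_sum e) j

end Mat

section Inv

variable {H : Type*} [Group H] {Lam : Subgroup Kˣ} {n : ℕ}

/-- the matrix entries are representative -/
theorem TMat.entry {X : Type*} [AddCommGroup X] [Module K X] {ρ : Representation K H X}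
    {f : Fin n → X} {a : H → Fin n → Fin n → K} (h : TMat Lam ρ f a) (j i : Fin n) :
    (fun g => a g j i) ∈ Orep Lam H := by
  choose u hu1 hu2 using h.diag
  refine ⟨_, TriS.family (Lam := Lam) (ρ := rt K H) (fun i : Fin n => (i : ℕ))
    (fun i g => a g j i) u hu1 (fun i g => ?_),
    subset_span ⟨i, rfl⟩⟩
  have e : rt K H g (fun x => a x j i) - (u i g : K) • (fun x => a x j i) =
      ∑ k ∈ Finset.univ.filter (fun k => k < i), a g k i • fun x => a x j k := by
    funext x
    rw [Pi.sub_apply, rt_apply, h.mul, Finset.sum_apply, Pi.smul_apply, smul_eq_mul, ← hu2,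
      Finset.sum_filter, sub_eq_iff_eq_add]
    have e2 : ∀ k, a x j k * a g k i = (if k < i then (a g k i • fun x => a x j k) x else 0) +
        if k = i then a g i i * a x j i else 0 := by
      intro k
      rcases lt_trichotomy k i with hk | hk | hk
      · rw [if_pos hk, if_neg hk.ne, add_zero, Pi.smul_apply, smul_eq_mul, mul_comm]
      · subst hk
        rw [if_neg (lt_irrefl _), if_pos rfl, zero_add, mul_comm]
      · rw [if_neg (not_lt.2 hk.le), if_neg hk.ne', h.tri g k i hk, mul_zero, add_zero]
    rw [Finset.sum_congr rfl fun k _ => e2 k, Finset.sum_add_distrib, Finset.sum_ite_eq',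
      if_pos (Finset.mem_univ i)]
  rw [e]
  refine sum_mem fun k hk => smul_mem _ _ (subset_span ⟨k, ?_, rfl⟩)
  exact Fin.lt_def.1 (Finset.mem_filter.1 hk).2

/-- the entries of the inverse matrix are representative -/
theorem TMat.entry_inv {X : Type*} [AddCommGroup X] [Module K X] {ρ : Representation K H X}
    {f : Fin n → X} {a : H → Fin n → Fin n → K} (h : TMat Lam ρ f a) (j i : Fin n) :
    (fun g => a g⁻¹ j i) ∈ Orep Lam H := by
  choose u hu1 hu2 using h.diag
  refine ⟨_, TriS.family (Lam := Lam) (ρ := rt K H) (fun j : Fin n => n - (j : ℕ))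
    (fun j g => a g⁻¹ j i) (fun j => (u j)⁻¹) (fun j g => inv_mem (hu1 j g)) (fun j g => ?_),
    subset_span ⟨j, rfl⟩⟩
  have hu3 : ((((u j)⁻¹ : H →* Kˣ) g : Kˣ) : K) = a g⁻¹ j j := by
    rw [hu2, map_inv, MonoidHom.inv_apply]
  have e : rt K H g (fun x => a x⁻¹ j i) - ((((u j)⁻¹ : H →* Kˣ) g : Kˣ) : K) •
      (fun x => a x⁻¹ j i) =
      ∑ k ∈ Finset.univ.filter (fun k => j < k), a g⁻¹ j k • fun x => a x⁻¹ k i := by
    funext x
    rw [Pi.sub_apply, rt_apply, mul_inv_rev, h.mul, Finset.sum_apply, Pi.smul_apply, smul_eq_mul,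
      hu3, Finset.sum_filter, sub_eq_iff_eq_add]
    have e2 : ∀ k, a g⁻¹ j k * a x⁻¹ k i =
        (if j < k then (a g⁻¹ j k • fun x => a x⁻¹ k i) x else 0) +
        if k = j then a g⁻¹ j j * a x⁻¹ j i else 0 := by
      intro k
      rcases lt_trichotomy j k with hk | hk | hk
      · rw [if_pos hk, if_neg hk.ne', add_zero, Pi.smul_apply, smul_eq_mul]
      · subst hk
        rw [if_neg (lt_irrefl _), if_pos rfl, zero_add]
      · rw [if_neg (not_lt.2 hk.le), if_neg hk.ne, h.tri g⁻¹ j k hk, zero_mul, add_zero]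
    rw [Finset.sum_congr rfl fun k _ => e2 k, Finset.sum_add_distrib, Finset.sum_ite_eq',
      if_pos (Finset.mem_univ j)]
  rw [e]
  refine sum_mem fun k hk => smul_mem _ _ (subset_span ⟨k, ?_, rfl⟩)
  have h1 := Fin.lt_def.1 (Finset.mem_filter.1 hk).2
  have h2 := k.2
  change n - (k : ℕ) < n - (j : ℕ)
  omega

theorem Orep_inv {f : H → K} (hf : f ∈ Orep Lam H) : (fun x => f x⁻¹) ∈ Orep Lam H := by
  obtain ⟨F, h1, h2⟩ := hf
  obtain ⟨n, b, a, hb, hs⟩ := h1.exists_tmat
  rw [← hs] at h2
  obtain ⟨c, rfl⟩ := (mem_span_range_iff_exists_fun K).1 h2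
  have e : (fun x => (∑ i, c i • b i) x⁻¹) = ∑ i, ∑ j, (c i * b j 1) • fun x => a x⁻¹ j i := by
    funext x
    rw [Finset.sum_apply, Finset.sum_apply]
    refine Finset.sum_congr rfl fun i _ => ?_
    rw [Finset.sum_apply, Pi.smul_apply, smul_eq_mul]
    have h3 := congrFun (hb.apply x⁻¹ i) 1
    rw [rt_apply, one_mul, Finset.sum_apply] at h3
    rw [h3, Finset.mul_sum]
    refine Finset.sum_congr rfl fun j _ => ?_
    rw [Pi.smul_apply, Pi.smul_apply, smul_eq_mul, smul_eq_mul]
    ring
  rw [e]
  exact sum_mem fun i _ => sum_mem fun j _ => smul_mem _ _ (hb.entry_inv j i)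

end Inv

/-! ### Cocycles -/

/-- The decomposition of a cocycle with values in the representative functions. -/
theorem decomp {Γ H : Type*} [Group Γ] [Group H] [Group.FG H] {Lam : Subgroup Kˣ} (j : H →* Γ)
    (c : H → Γ → K) (hc : ∀ g h x, c (g * h) x = c g x + c h (x * j g))
    (hO : ∀ g, c g ∈ Orep Lam Γ) : ∃ (n : ℕ) (α : Fin n → H → K) (f : Fin n → Γ → K),
      (∀ i, α i ∈ Orep Lam H) ∧ (∀ i, f i ∈ Orep Lam Γ) ∧
      ∀ g x, c g x = ∑ i, α i g * f i x := by
  classical
  obtain ⟨S, hS, hfin⟩ := Group.fg_iff.1 (inferInstance : Group.FG H)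
  have := hfin.to_subtype
  obtain ⟨F, hF, hSF⟩ := exists_triO (fun s : S => c s) fun s => hO s
  have h1 : c 1 = 0 := by
    funext x
    have := hc 1 1 x
    rw [mul_one, map_one, mul_one] at this
    rw [Pi.zero_apply]
    exact left_eq_add.1 this
  have hmul : ∀ g h, c (g * h) = c g + rt K Γ (j g) (c h) := fun g h => funext fun x => hc g h x
  have hcF : ∀ g, c g ∈ F := by
    intro g
    have hg : g ∈ Subgroup.closure S := by rw [hS]; exact Subgroup.mem_top g
    induction hg using Subgroup.closure_induction with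
    | mem x hx => exact hSF ⟨x, hx⟩
    | one => rw [h1]; exact zero_mem F
    | mul x y _ _ hx hy =>
      rw [hmul]
      exact add_mem hx (hF.stable _ _ hy)
    | inv x _ hx =>
      have h2 := hmul x⁻¹ x
      rw [inv_mul_cancel, h1] at h2
      have h3 : c x⁻¹ = - rt K Γ (j x⁻¹) (c x) := by
        rw [eq_neg_iff_add_eq_zero]
        exact h2.symm
      rw [h3]
      exact neg_mem (hF.stable _ _ hx)
  obtain ⟨n, f, a, hm, hs⟩ := hF.exists_tmat
  have hex : ∀ g, ∃ α : Fin n → K, ∑ i, α i • f i = c g := by
    intro g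
    have := hcF g
    rw [← hs] at this
    exact (mem_span_range_iff_exists_fun K).1 this
  choose α hα using hex
  refine ⟨n, fun i g => α g i, f, fun i => ?_, fun i => ⟨F, hF, ?_⟩, fun g x => ?_⟩
  · obtain ⟨E, hE, hE'⟩ := exists_triO (Lam := Lam) (fun k g => a (j g) i k) fun k =>
      Orep_comp j (hm.entry i k)
    refine Orep_of_step (lam := 1) (fun _ => one_mem _) hE fun g => ?_
    have e : rt K H g (fun g => α g i) - (((1 : H →* Kˣ) g : Kˣ) : K) • (fun g => α g i) =
        ∑ k, α g k • fun g => a (j g) i k := by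
      funext h
      rw [MonoidHom.one_apply, Units.val_one, one_smul, Pi.sub_apply, rt_apply, Finset.sum_apply,
        sub_eq_iff_eq_add]
      have h2 : α (h * g) = fun i => α h i + ∑ k, a (j h) i k * α g k := by
        refine hm.eq_of_sum ?_
        rw [hα, hmul h g, ← hα h, ← hα g, map_sum]
        simp only [map_smul, hm.apply, add_smul, Finset.sum_add_distrib, Finset.sum_smul,
          Finset.smul_sum, smul_smul]
        congr 1
        rw [Finset.sum_comm]
        refine Finset.sum_congr rfl fun i _ => Finset.sum_congr rfl fun k _ => ?_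
        rw [mul_comm]
      have h3 : α (h * g) i = α h i + ∑ k, a (j h) i k * α g k := congrFun h2 i
      have h4 : ∑ k, a (j h) i k * α g k = ∑ k, (α g k • fun g => a (j g) i k) h :=
        Finset.sum_congr rfl fun k _ => by rw [Pi.smul_apply, smul_eq_mul, mul_comm]
      rw [h4] at h3
      exact h3.trans (add_comm _ _)
    rw [e]
    exact Submodule.sum_mem _ fun k _ => smul_mem _ _ (hE' k)
  · rw [← hs]
    exact subset_span ⟨i, rfl⟩
  · rw [← hα g, Finset.sum_apply]
    rfl

end Pool.Agent.S9
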