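import Pool.Agent.S9.Defs
import Pool.Agent.S9.G.Rep

/-!
# Project S9, block G: triangular modules and triangular submodules
-/

set_option autoImplicit false

namespace Pool.Agent.S9

open Submodule

section Bri

variable {K : Type} [Field K] {Λ : Subgroup Kˣ} {H : Type} [Group H]

private theorem add_fin {X : Type*} [AddCommGroup X] [Module K X] {ρ : Representation K H X}
    {F : Submodule K X} (hF : TriS Λ ρ F) {lam : H →* Kˣ} (hl : ∀ g, lam g ∈ Λ) (s : Finset X)
    (h : ∀ y ∈ s, ∀ g, ρ g y - (lam g : K) • y ∈ F) : TriS Λ ρ (F ⊔ span K (s : Set X)) := by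
  classical
  induction s using Finset.induction_on with
  | empty => simpa using hF
  | insert a s _ ih =>
    have e : F ⊔ span K ((insert a s : Finset X) : Set X) =
        (F ⊔ span K (s : Set X)) ⊔ span K {a} := by
      rw [Finset.coe_insert, span_insert, sup_assoc, sup_comm (span K {a})]
    rw [e]
    exact TriS.step _ a lam hl (fun g => mem_sup_left (h a (Finset.mem_insert_self a s) g))
      (ih fun y hy => h y (Finset.mem_insert_of_mem hy))

theorem triS_of_tri {E : Type} [AddCommGroup E] [Module K E] [FiniteDimensional K E]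
    {ρ : H →* Module.End K E} (h : Tri Λ ρ) : TriS Λ (ρ : Representation K H E) ⊤ := by
  obtain ⟨n, F, hm, h0, hn, hq⟩ := h
  have key : ∀ j, TriS Λ (ρ : Representation K H E) (F j) := by
    intro j
    induction j with
    | zero => rw [h0]; exact TriS.bot
    | succ j ih =>
      obtain ⟨lam, hl, h1⟩ := hq j
      obtain ⟨s, hs⟩ : (F (j + 1)).FG := IsNoetherian.noetherian _
      have e : F (j + 1) = F j ⊔ span K (s : Set E) := by
        rw [hs]
        exact (sup_eq_right.2 (hm (Nat.le_succ j))).symm
      rw [e]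
      refine add_fin ih hl s fun y hy g => h1 g y ?_
      rw [← hs]
      exact subset_span hy
  rw [← hn]
  exact key n

/-- the matrix coefficients of a triangular module are representative -/
theorem coeff {E : Type} [AddCommGroup E] [Module K E] [FiniteDimensional K E]
    {ρ : H →* Module.End K E} (h : Tri Λ ρ) (ξ : E →ₗ[K] K) (e : E) :
    (fun y => ξ (ρ y e)) ∈ Orep Λ H := by
  let L : E →ₗ[K] (H → K) :=
    { toFun := fun e y => ξ (ρ y e)
      map_add' := fun a b => by
        funext y
        rw [map_add, map_add]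
        rfl
      map_smul' := fun c a => by
        funext y
        rw [map_smul, map_smul]
        rfl }
  refine ⟨(⊤ : Submodule K E).map L, TriS.map (MonoidHom.id H) L (fun g x => ?_) (triS_of_tri h),
    mem_map_of_mem (f := L) (mem_top (x := e))⟩
  funext y
  change ξ (ρ (y * g) x) = ξ (ρ y (ρ g x))
  rw [map_mul]
  rfl

theorem TriS.exists_chain {X : Type*} [AddCommGroup X] [Module K X] {ρ : Representation K H X}
    {F : Submodule K X} (hF : TriS Λ ρ F) : ∃ (n : ℕ) (C : ℕ → Submodule K X), Monotone C ∧
      C 0 = ⊥ ∧ (∀ j, n ≤ j → C j = F) ∧ ∀ j, ∃ lam : H →* Kˣ, (∀ g, lam g ∈ Λ) ∧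
        ∀ g, ∀ y ∈ C (j + 1), ρ g y - (lam g : K) • y ∈ C j := by
  induction hF with
  | bot =>
    refine ⟨0, fun _ => ⊥, fun _ _ _ => le_rfl, rfl, fun _ _ => rfl, fun _ => ⟨1,
      fun _ => one_mem _, fun g y hy => ?_⟩⟩
    rw [mem_bot] at hy ⊢
    rw [hy, map_zero, smul_zero, sub_zero]
  | step F f lam hl h hF ih =>
    obtain ⟨n, C, hm, h0, hn, hq⟩ := ih
    have hst := (TriS.step F f lam hl h hF).stable
    have hle : ∀ j, C j ≤ F := fun j => by
      rcases le_total n j with hj | hj
      · exact (hn j hj).le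
      · exact (hm hj).trans (hn n le_rfl).le
    refine ⟨n + 1, fun j => if j ≤ n then C j else F ⊔ span K {f}, ?_, ?_, ?_, ?_⟩
    · intro i j hij
      change (if i ≤ n then C i else F ⊔ span K {f}) ≤ if j ≤ n then C j else F ⊔ span K {f}
      by_cases hj : j ≤ n
      · rw [if_pos hj, if_pos (hij.trans hj)]
        exact hm hij
      · rw [if_neg hj]
        split_ifs
        · exact (hle i).trans le_sup_left
        · exact le_rfl
    · change (if 0 ≤ n then C 0 else F ⊔ span K {f}) = ⊥
      rw [if_pos (Nat.zero_le n), h0]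
    · intro j hj
      change (if j ≤ n then C j else F ⊔ span K {f}) = _
      rw [if_neg (by omega)]
    · intro j
      change ∃ lam : H →* Kˣ, (∀ g, lam g ∈ Λ) ∧ ∀ g,
        ∀ y ∈ (if j + 1 ≤ n then C (j + 1) else F ⊔ span K {f}),
          ρ g y - (lam g : K) • y ∈ if j ≤ n then C j else F ⊔ span K {f}
      rcases lt_trichotomy j n with hj | hj | hj
      · rw [if_pos (Nat.succ_le_of_lt hj), if_pos hj.le]
        exact hq j
      · subst hj
        rw [if_neg (by omega), if_pos le_rfl, hn j le_rfl]
        refine ⟨lam, hl, fun g y hy => ?_⟩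
        obtain ⟨a, ha, b, hb, rfl⟩ := mem_sup.1 hy
        obtain ⟨c, rfl⟩ := mem_span_singleton.1 hb
        have e : ρ g (a + c • f) - (lam g : K) • (a + c • f) =
            (ρ g a - (lam g : K) • a) + c • (ρ g f - (lam g : K) • f) := by
          rw [map_add, map_smul, smul_add, smul_sub, smul_comm c (lam g : K) f]
          abel
        rw [e]
        exact add_mem (sub_mem (hF.stable g a ha) (smul_mem _ _ ha)) (smul_mem _ _ (h g))
      · rw [if_neg (by omega), if_neg (by omega)]
        refine ⟨1, fun _ => one_mem _, fun g y hy => ?_⟩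
        exact sub_mem (hst g y hy) (smul_mem _ _ hy)

/-- the componentwise right translation on the functions with values in `K ^ m` whose components are in
the space `F` -/
def rtF (F : Submodule K (H → K)) (hst : ∀ g, ∀ f ∈ F, rt K H g f ∈ F) (m : ℕ) :
    H →* Module.End K (Fin m → F) where
  toFun g :=
    { toFun := fun u i => ⟨rt K H g (u i), hst g _ (u i).2⟩
      map_add' := fun _ _ => rfl
      map_smul' := fun _ _ => rfl }
  map_one' := by
    refine LinearMap.ext fun u => ?_
    funext i
    refine Subtype.ext ?_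
    funext x
    change (u i : H → K) (x * 1) = (u i : H → K) x
    rw [mul_one]
  map_mul' g h := by
    refine LinearMap.ext fun u => ?_
    funext i
    refine Subtype.ext ?_
    funext x
    change (u i : H → K) (x * (g * h)) = (u i : H → K) (x * g * h)
    rw [mul_assoc]

theorem rtF_apply (F : Submodule K (H → K)) (hst : ∀ g, ∀ f ∈ F, rt K H g f ∈ F) (m : ℕ) (g : H)
    (u : Fin m → F) (i : Fin m) (x : H) : (rtF F hst m g u i : H → K) x = (u i : H → K) (x * g) :=
  rfl

theorem tri_pow {F : Submodule K (H → K)} (hF : TriS Λ (rt K H) F) (m : ℕ) :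
    Tri Λ (rtF F hF.stable m) := by
  obtain ⟨n, C, hm, h0, hn, hq⟩ := hF.exists_chain
  refine ⟨n, fun j =>
    { carrier := {u | ∀ i, (u i : H → K) ∈ C j}
      zero_mem' := fun i => zero_mem _
      add_mem' := fun h1 h2 i => add_mem (h1 i) (h2 i)
      smul_mem' := fun c u h i => smul_mem _ c (h i) }, ?_, ?_, ?_, ?_⟩
  · intro i j hij u hu k
    exact hm hij (hu k)
  · rw [eq_bot_iff]
    intro u hu
    rw [mem_bot]
    funext i
    have h1 := hu i
    rw [h0, mem_bot] at h1
    exact Subtype.ext h1
  · rw [eq_top_iff]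
    intro u _ i
    rw [hn n le_rfl]
    exact (u i).2
  · intro j
    obtain ⟨lam, hl, h1⟩ := hq j
    exact ⟨lam, hl, fun g u hu i => h1 g _ (hu i)⟩

theorem TriS.finiteDimensional {F : Submodule K (H → K)} (hF : TriS Λ (rt K H) F) (m : ℕ) :
    FiniteDimensional K (Fin m → F) := by
  have : FiniteDimensional K F := Module.Finite.iff_fg.2 hF.fg
  infer_instance

end Bri

end Pool.Agent.S9
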