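import Pool.Agent.S9.Defs
import Pool.Agent.S9.G.Rep

/-!
# Project S9, block G: potentials of representative cocycles of degree one
-/

set_option autoImplicit false
set_option linter.unusedSectionVars false

open Finset

namespace Pool.Agent.S9

/-! ### The extension of `W` by the functions -/

/-- the semidirect product of the functions `W → K` and `W` -/
def EK (W K : Type) : Type := (W → K) × W

section EK

variable (W K : Type) [Group W] [AddCommGroup K]

instance EK_mul : Mul (EK W K) := ⟨fun x y => (fun p => x.1 p + y.1 (p * x.2), x.2 * y.2)⟩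

instance EK_one : One (EK W K) := ⟨(fun _ => 0, 1)⟩

instance EK_inv : Inv (EK W K) := ⟨fun x => (fun p => - x.1 (p * x.2⁻¹), x.2⁻¹)⟩

variable {W K}

theorem EK_ext {x y : EK W K} (h1 : ∀ p, x.1 p = y.1 p) (h2 : x.2 = y.2) : x = y :=
  Prod.ext (funext fun p => h1 p) h2

theorem EK_mul_fst (x y : EK W K) (p : W) : (x * y).1 p = x.1 p + y.1 (p * x.2) := rfl

theorem EK_mul_snd (x y : EK W K) : (x * y).2 = x.2 * y.2 := rfl

theorem EK_one_fst (p : W) : (1 : EK W K).1 p = 0 := rfl

theorem EK_one_snd : (1 : EK W K).2 = 1 := rfl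

variable (W K)

instance EK_group : Group (EK W K) :=
  Group.ofLeftAxioms
    (by
      intro a b c
      refine EK_ext (fun p => ?_) ?_
      · rw [EK_mul_fst, EK_mul_fst, EK_mul_fst, EK_mul_fst, EK_mul_snd, mul_assoc p a.2 b.2,
          add_assoc]
      · rw [EK_mul_snd, EK_mul_snd, EK_mul_snd, EK_mul_snd, mul_assoc])
    (by
      intro a
      refine EK_ext (fun p => ?_) ?_
      · rw [EK_mul_fst]
        change 0 + a.1 (p * 1) = a.1 p
        rw [mul_one, zero_add]
      · rw [EK_mul_snd]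
        exact one_mul a.2)
    (by
      intro a
      refine EK_ext (fun p => ?_) ?_
      · rw [EK_mul_fst]
        change - a.1 (p * a.2⁻¹) + a.1 (p * a.2⁻¹) = 0
        rw [neg_add_cancel]
      · rw [EK_mul_snd]
        exact inv_mul_cancel a.2)

/-- the projection to `W` -/
def EK_snd : EK W K →* W where
  toFun x := x.2
  map_one' := rfl
  map_mul' _ _ := rfl

end EK

/-! ### Representative functions on `W` -/

section OW

variable {W : Type} [Group W] {K : Type} [Field K] (Γ : Subgroup W) (Λ : Subgroup Kˣ)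

/-- the functions on `W` whose restrictions to the cosets `Γ w` are representative -/
def OW : AddSubgroup (W → K) where
  carrier := {f | ∀ w, (fun x : Γ => f (x * w)) ∈ Orep Λ Γ}
  zero_mem' := fun _ => (Orep Λ Γ).zero_mem
  add_mem' := fun h1 h2 w => (Orep Λ Γ).add_mem (h1 w) (h2 w)
  neg_mem' := fun h w => (Orep Λ Γ).neg_mem (h w)

variable {Γ Λ}

theorem mem_OW {f : W → K} : f ∈ OW Γ Λ ↔ ∀ w, (fun x : Γ => f (x * w)) ∈ Orep Λ Γ := Iff.rfl

theorem OW_right {f : W → K} (hf : f ∈ OW Γ Λ) (v : W) : (fun w => f (w * v)) ∈ OW Γ Λ := by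
  intro w
  have h := hf (w * v)
  simpa only [mul_assoc] using h

end OW

section Pot

variable {V : Type} [DecidableEq V] [Fintype V] {G : SimpleGraph V} {W : Type} [Group W]
  (R : Rac G W) {K : Type} [Field K]

/-- the hypotheses on the potential: `c u`, `u ∈ T`, is a cocycle, invariant under `C` -/
structure H1d (T C : Finset V) (c : V → W → K) : Prop where
  clique : G.IsClique (C : Set V)
  adj : ∀ u ∈ T, ∀ a ∈ C, G.Adj u a
  inv : ∀ u ∈ T, ∀ a, a = u ∨ a ∈ C → ∀ w, c u (w * R.s a) = c u w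
  coc : ∀ u ∈ T, ∀ v ∈ T, G.Adj u v → ∀ w,
    c u w + c v (w * R.s u) = c v w + c u (w * R.s v)

variable {R} {T C : Finset V} {c : V → W → K}

open Classical in
private noncomputable def gn (R : Rac G W) (T C : Finset V) (c : V → W → K) (u : V) : EK W K :=
  (if u ∈ T then c u else fun _ => 0, if u ∈ T ∪ C then R.s u else 1)

private theorem gn_fst (u : V) (p : W) : (gn R T C c u).1 p = if u ∈ T then c u p else 0 := by
  unfold gn
  split_ifs <;> rfl

private theorem gn_snd (u : V) : (gn R T C c u).2 = if u ∈ T ∪ C then R.s u else 1 := by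
  unfold gn
  congr

private theorem gn_sq [CharP K 2] (h : H1d R T C c) (u : V) : gn R T C c u * gn R T C c u = 1 := by
  refine EK_ext (fun p => ?_) ?_
  · rw [EK_mul_fst, EK_one_fst, gn_fst, gn_fst, gn_snd]
    by_cases hu : u ∈ T
    · rw [if_pos hu, if_pos (mem_union_left C hu), h.inv u hu u (Or.inl rfl)]
      simp only [if_pos hu]
      exact CharTwo.add_self_eq_zero _
    · simp only [if_neg hu, add_zero]
  · rw [EK_mul_snd, EK_one_snd, gn_snd]
    split_ifs
    · exact R.sq u
    · exact mul_one 1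

private theorem gn_comm (h : H1d R T C c) (u v : V) (huv : G.Adj u v) :
    gn R T C c u * gn R T C c v = gn R T C c v * gn R T C c u := by
  refine EK_ext (fun p => ?_) ?_
  · rw [EK_mul_fst, EK_mul_fst, gn_fst, gn_fst, gn_fst, gn_fst, gn_snd, gn_snd]
    have key : ∀ u v : V, u ∈ T → v ∉ T → (if v ∈ T ∪ C then R.s v else 1 : W) = R.s v ∧ v ∈ C ∨
        (if v ∈ T ∪ C then R.s v else 1 : W) = 1 := by
      intro u v _ hv
      by_cases hC : v ∈ C
      · exact Or.inl ⟨if_pos (mem_union_right T hC), hC⟩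
      · right
        rw [if_neg]
        intro h'
        rcases mem_union.1 h' with h' | h'
        · exact hv h'
        · exact hC h'
    by_cases hu : u ∈ T <;> by_cases hv : v ∈ T
    · simp only [if_pos hu, if_pos hv, if_pos (mem_union_left C hu), if_pos (mem_union_left C hv)]
      exact h.coc u hu v hv huv p
    · simp only [if_pos hu, if_neg hv, add_zero, zero_add]
      rcases key u v hu hv with ⟨e, hC⟩ | e
      · rw [e, h.inv u hu v (Or.inr hC)]
      · rw [e, mul_one]
    · simp only [if_pos hv, if_neg hu, add_zero, zero_add]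
      rcases key v u hv hu with ⟨e, hC⟩ | e
      · rw [e, h.inv v hv u (Or.inr hC)]
      · rw [e, mul_one]
    · simp only [if_neg hu, if_neg hv]
  · rw [EK_mul_snd, EK_mul_snd, gn_snd, gn_snd]
    split_ifs
    · exact R.comm u v huv
    · rw [mul_one, one_mul]
    · rw [mul_one, one_mul]
    · rfl

private theorem W_fg (R : Rac G W) : Group.FG W :=
  Group.fg_iff.2 ⟨Set.range R.s, R.gen, Set.finite_range R.s⟩

/-- **potentials of representative cocycles** -/
theorem pot0 [CharP K 2] {Γ : Subgroup W} (hnorm : Γ.Normal) (hfi : Γ.FiniteIndex)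
    (hret : ∀ U : Finset V, ∀ g ∈ Γ, R.r U g ∈ Γ) {Λ : Subgroup Kˣ} (h : H1d R T C c)
    (hO : ∀ u ∈ T, c u ∈ OW Γ Λ) : ∃ f ∈ OW Γ Λ, (∀ a ∈ C, ∀ w, f (w * R.s a) = f w) ∧
      ∀ u ∈ T, ∀ w, f (w * R.s u) = f w + c u w := by
  obtain ⟨Φ, hΦ⟩ := R.lift (EK W K) (gn R T C c) (fun u => gn_sq h u) fun u v => gn_comm h u v
  have h2 : ∀ w, (Φ w).2 = R.r (T ∪ C) w := by
    have e : (EK_snd W K).comp Φ = R.r (T ∪ C) := by
      refine MonoidHom.eq_of_eqOn_dense R.gen ?_
      rintro _ ⟨u, rfl⟩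
      rw [MonoidHom.comp_apply, hΦ, R.r_s]
      exact gn_snd (R := R) (T := T) (C := C) (c := c) u
    intro w
    exact DFunLike.congr_fun e w
  have hmul : ∀ w w' p, (Φ (w * w')).1 p = (Φ w).1 p + (Φ w').1 (p * R.r (T ∪ C) w) := by
    intro w w' p
    rw [map_mul, EK_mul_fst, h2]
  have hone : ∀ p, (Φ 1).1 p = 0 := by
    intro p
    rw [map_one]
    rfl
  -- the path sums are representative
  have hF : ∀ u : W, (fun p => (Φ u).1 p) ∈ OW Γ Λ := by
    intro u
    have hu : u ∈ Subgroup.closure (Set.range R.s) := by rw [R.gen]; exact Subgroup.mem_top u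
    induction hu using Subgroup.closure_induction with
    | mem x hx =>
      obtain ⟨v, rfl⟩ := hx
      by_cases hv : v ∈ T
      · have e : (fun p => (Φ (R.s v)).1 p) = c v := by
          funext p
          rw [hΦ, gn_fst, if_pos hv]
        rw [e]
        exact hO v hv
      · have e : (fun p => (Φ (R.s v)).1 p) = 0 := by
          funext p
          rw [hΦ, gn_fst, if_neg hv]
          rfl
        rw [e]
        exact (OW Γ Λ).zero_mem
    | one =>
      have e : (fun p => (Φ 1).1 p) = 0 := funext hone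
      rw [e]
      exact (OW Γ Λ).zero_mem
    | mul x y _ _ hx hy =>
      have e : (fun p => (Φ (x * y)).1 p) = (fun p => (Φ x).1 p) +
          fun p => (Φ y).1 (p * R.r (T ∪ C) x) := funext (hmul x y)
      rw [e]
      exact (OW Γ Λ).add_mem hx (OW_right hy _)
    | inv x _ hx =>
      have e : (fun p => (Φ x⁻¹).1 p) = - fun p => (Φ x).1 (p * R.r (T ∪ C) x⁻¹) := by
        funext p
        have := hmul x⁻¹ x p
        rw [inv_mul_cancel, hone] at this
        rw [Pi.neg_apply, eq_neg_iff_add_eq_zero]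
        exact this.symm
      rw [e]
      exact (OW Γ Λ).neg_mem (OW_right hx _)
  refine ⟨fun w => (Φ w⁻¹).1 w, fun w₀ => ?_, fun a ha w => ?_, fun u hu w => ?_⟩
  · -- the function is representative
    have := hnorm
    have := hfi
    have := W_fg R
    have hfg : Group.FG Γ := inferInstance
    obtain ⟨h₀, hh₀⟩ : ∃ h₀, h₀ = w₀ * R.r (T ∪ C) w₀⁻¹ := ⟨_, rfl⟩
    let j : Γ →* Γ :=
      { toFun := fun g => ⟨h₀ * R.r (T ∪ C) g * h₀⁻¹,
          hnorm.conj_mem _ (hret _ _ g.2) h₀⟩
        map_one' := Subtype.ext (by simp)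
        map_mul' := fun g g' => Subtype.ext (by
          simp only [Subgroup.coe_mul, map_mul]
          group) }
    have hj : ∀ g : Γ, ((j g : Γ) : W) = h₀ * R.r (T ∪ C) g * h₀⁻¹ := fun g => rfl
    obtain ⟨n, α, f, hα, hf, hc⟩ := decomp (Lam := Λ) j
      (fun (g : Γ) (x : Γ) => (Φ (g : W)).1 ((x : W) * h₀)) (fun g g' x => by
        simp only [Subgroup.coe_mul]
        rw [hmul, hj]
        congr 2
        group) (fun g => hF g h₀)
    have e : (fun x : Γ => (Φ ((x : W) * w₀)⁻¹).1 ((x : W) * w₀)) =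
        (fun x : Γ => (Φ w₀⁻¹).1 ((x : W) * w₀)) + fun x : Γ => ∑ i, α i x⁻¹ * f i x := by
      funext x
      rw [Pi.add_apply, mul_inv_rev, hmul]
      congr 1
      have := hc x⁻¹ x
      rw [← this, hh₀]
      simp only [Subgroup.coe_inv]
      rw [mul_assoc]
    rw [e]
    refine (Orep Λ Γ).add_mem (hF _ w₀) ?_
    have e2 : (fun x : Γ => ∑ i, α i x⁻¹ * f i x) = ∑ i, fun x : Γ => α i x⁻¹ * f i x := by
      funext x
      rw [Finset.sum_apply]
    rw [e2]
    exact Submodule.sum_mem _ fun i _ => Orep_mul (Orep_inv (hα i)) (hf i)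
  · have hu : a ∉ T := fun h' => G.loopless.irrefl a (h.adj a h' a ha)
    change (Φ (w * R.s a)⁻¹).1 (w * R.s a) = (Φ w⁻¹).1 w
    have e : (w * R.s a)⁻¹ = R.s a * w⁻¹ := by
      rw [mul_inv_rev, inv_eq_of_mul_eq_one_left (R.sq a)]
    rw [e, hmul, hΦ, gn_fst, if_neg hu, zero_add, R.r_s, if_pos (mem_union_right T ha), mul_assoc,
      R.sq, mul_one]
  · change (Φ (w * R.s u)⁻¹).1 (w * R.s u) = (Φ w⁻¹).1 w + c u w
    have e : (w * R.s u)⁻¹ = R.s u * w⁻¹ := by
      rw [mul_inv_rev, inv_eq_of_mul_eq_one_left (R.sq u)]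
    rw [e, hmul, hΦ, gn_fst, if_pos hu, R.r_s, if_pos (mem_union_left C hu), mul_assoc,
      R.sq, mul_one, h.inv u hu u (Or.inl rfl), add_comm]

/-- **potentials of representative cocycles** -/
theorem pot [CharP K 2] {Γ : Subgroup W} (hΓ : Lev R Γ) {Λ : Subgroup Kˣ} (h : H1d R T C c)
    (hO : ∀ u ∈ T, c u ∈ OW Γ Λ) : ∃ f ∈ OW Γ Λ, (∀ a ∈ C, ∀ w, f (w * R.s a) = f w) ∧
      ∀ u ∈ T, ∀ w, f (w * R.s u) = f w + c u w := pot0 hΓ.normal hΓ.fin hΓ.ret h hO

end Pot

end Pool.Agent.S9
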