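import Pool.Agent.S9.GInd
import Pool.Agent.S9.G.Pot
import Pool.Agent.S9.G.Bri

/-!
# Project S9, block G: effaceability
-/

set_option autoImplicit false
set_option linter.unusedSectionVars false

open Finset

namespace Pool.Agent.S9

variable {V : Type} [DecidableEq V] [Fintype V] {G : SimpleGraph V} {W : Type} [Group W]

/-- primitives of tuples of scalar cocycles -/
theorem eff_prim (R : Rac G W) {Γ : Subgroup W} (hΓ : Lev R Γ) {K : Type} [Field K] [CharP K 2]
    {Λ : Subgroup Kˣ} {d k : ℕ} (x : Fin d → Finset V → W → K) (hO : ∀ i A, x i A ∈ OW Γ Λ)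
    (hinv : ∀ i A, ∀ v ∈ A, ∀ w, x i A (w * R.s v) = x i A w)
    (hco : ∀ i (A : Finset V), G.IsClique (A : Set V) → ∀ w, gd R.s (x i) A w = 0) :
    ∃ η : Fin d → Finset V → W → K, (∀ i A, η i A ∈ OW Γ Λ) ∧
      (∀ i (A : Finset V), η i A ≠ 0 → G.IsClique (A : Set V) ∧ A.card = k) ∧
      (∀ i A, ∀ v ∈ A, ∀ w, η i A (w * R.s v) = η i A w) ∧
      ∀ i (A : Finset V), G.IsClique (A : Set V) → A.card = k + 1 → ∀ w,
        gd R.s (η i) A w = x i A w := by
  classical
  have hM : ∀ a : K, a + a = 0 := fun a => CharTwo.add_self_eq_zero a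
  have key : ∀ i, ∃ η : Finset V → W → K,
      (∀ B ⊆ (univ : Finset V), G.IsClique (B : Set V) → B.card + 1 = k + 1 →
        η B ∈ OW Γ Λ ∧ GInv R.s (B ∪ ∅) (η B)) ∧
      ∀ A ⊆ (univ : Finset V), G.IsClique (A : Set V) → A.card = k + 1 → ∀ w,
        gd R.s η A w = x i A w := by
    intro i
    refine g_ind G R.s R.sq R.comm hM (OW Γ Λ) (fun f hf v => OW_right hf (R.s v))
      (fun T C hC hTC c hc hci hcc => pot hΓ ⟨hC, hTC, hci, hcc⟩ hc) (univ : Finset V).card univ ∅
      le_rfl ?_ (fun u _ a ha => absurd ha (notMem_empty a)) (k + 1) (Nat.le_add_left 1 k) (x i)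
      (fun A _ _ _ => ⟨hO i A, fun a ha w => ?_⟩) fun A _ hA _ w => hco i A hA w
    · rw [coe_empty]
      exact Set.pairwise_empty _
    · rw [union_empty] at ha
      exact hinv i A a ha w
  choose η h1 h2 using key
  obtain ⟨η', hη'⟩ : ∃ η' : Fin d → Finset V → W → K, ∀ i A, η' i A =
      if G.IsClique (A : Set V) ∧ A.card = k then η i A else 0 := ⟨_, fun _ _ => rfl⟩
  refine ⟨η', fun i A => ?_, fun i A hA => ?_, fun i A v hv w => ?_, fun i A hA hk w => ?_⟩
  · rw [hη']
    split_ifs with h
    · exact (h1 i A (subset_univ _) h.1 (by rw [h.2])).1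
    · exact zero_mem _
  · by_contra h
    exact hA (by rw [hη', if_neg h])
  · rw [hη']
    split_ifs with h
    · exact (h1 i A (subset_univ _) h.1 (by rw [h.2])).2 v (by rw [union_empty]; exact hv) w
    · rfl
  · rw [← h2 i A (subset_univ _) hA hk w]
    refine sum_congr rfl fun v hv => ?_
    have hcl : G.IsClique ((A.erase v : Finset V) : Set V) :=
      hA.subset (by exact_mod_cast erase_subset v A)
    have hck : (A.erase v).card = k := by
      rw [card_erase_of_mem hv, hk, Nat.add_sub_cancel]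
    rw [hη', if_pos ⟨hcl, hck⟩]

/-- **Block G: effaceability** -/
theorem G_main (R : Rac G W) {Γ : Subgroup W} (hΓ : Lev R Γ) (K : Type) [Field K] [CharP K 2]
    (Λ : Subgroup Kˣ) : Eff R K Γ Λ := by
  classical
  intro k E _ _ _ ρ hρ x hx hcb
  obtain ⟨hx1, hx2, hx3⟩ := (mem_Cc R).1 hx
  have hxz : ∀ (A : Finset V) (w : W), ¬ (G.IsClique (A : Set V) ∧ A.card = k + 1) → x A w = 0 := by
    intro A w h
    by_contra h0
    exact h (hx1 A fun h1 => h0 (by rw [h1]; rfl))
  obtain ⟨d, ⟨b⟩⟩ : ∃ d : ℕ, Nonempty (Module.Basis (Fin d) K E) :=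
    ⟨_, ⟨Module.finBasis K E⟩⟩
  obtain ⟨cr, hcr⟩ : ∃ cr : Fin d → E →ₗ[K] K, ∀ i e, cr i e = b.repr e i :=
    ⟨fun i => b.coord i, fun i e => rfl⟩
  obtain ⟨η, hηO, hη1, hη2, hηd⟩ := eff_prim R hΓ (Λ := Λ) (d := d) (k := k)
    (fun i A w => cr i (x A w)) (fun i A w => by
      have h := coeff hρ (cr i) (x A w)
      refine (congrArg (· ∈ Orep Λ Γ) (funext fun g => ?_)).mp h
      change cr i (ρ g (x A w)) = cr i (x A (g * w))
      rw [hx3])
    (fun i A v hv w => by rw [hx2 A v hv w])
    (fun i A hA w => by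
      have h := congrFun (congrFun hcb A) w
      have h1 : cb R x A w = ∑ v ∈ A, (x (A.erase v) w + x (A.erase v) (w * R.s v)) := by
        rw [cb, if_pos hA]
      rw [h1] at h
      have h2 := congrArg (cr i) h
      rw [map_sum] at h2
      simp only [map_add] at h2
      rw [gd, h2]
      exact map_zero _)
  -- one triangular space with all the functions
  have hfin : Finite (W ⧸ Γ) := by
    have := hΓ.fin
    exact Subgroup.finite_quotient_of_finiteIndex
  obtain ⟨F, hF, hmem⟩ := exists_triO (Lam := Λ) (H := Γ)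
    (ι := (Fin d × Finset V × (W ⧸ Γ)) ⊕ (Fin d × Fin d))
    (fun t => Sum.elim (fun t (g : Γ) => η t.1 t.2.1 (g * t.2.2.out))
      (fun t (g : Γ) => cr t.1 (ρ g (b t.2))) t) (fun t => by
        rcases t with t | t
        · exact hηO t.1 t.2.1 t.2.2.out
        · exact coeff hρ (cr t.1) (b t.2))
  have hst := hF.stable
  have hη : ∀ i A w, (fun g : Γ => η i A (g * w)) ∈ F := by
    intro i A w
    have h1 := hmem (Sum.inl (i, A, (w : W ⧸ Γ)))
    obtain ⟨γ, hγ⟩ : ∃ γ : Γ, w = γ * (w : W ⧸ Γ).out := by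
      have h2 : ((w : W ⧸ Γ).out)⁻¹ * w ∈ Γ := by
        rw [← QuotientGroup.eq, QuotientGroup.out_eq']
      refine ⟨⟨w * ((w : W ⧸ Γ).out)⁻¹, ?_⟩, by simp⟩
      have h3 := hΓ.normal.conj_mem _ h2 ((w : W ⧸ Γ).out)
      simpa [mul_assoc] using h3
    have h4 := hst γ _ h1
    refine (congrArg (· ∈ F) (funext fun g => ?_)).mp h4
    change η i A (((g * γ : Γ) : W) * (w : W ⧸ Γ).out) = η i A (g * w)
    conv_rhs => rw [hγ]
    rw [Subgroup.coe_mul, mul_assoc]
  have hρF : ∀ i e, (fun g : Γ => cr i (ρ g e)) ∈ F := by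
    intro i e
    have h1 : (fun g : Γ => cr i (ρ g e)) = ∑ j, b.repr e j • fun g : Γ => cr i (ρ g (b j)) := by
      funext g
      conv_lhs => rw [← b.sum_repr e]
      rw [map_sum, map_sum, Finset.sum_apply]
      refine sum_congr rfl fun j _ => ?_
      rw [map_smul, map_smul]
      rfl
    rw [h1]
    exact Submodule.sum_mem _ fun j _ => Submodule.smul_mem _ _ (hmem (Sum.inr (i, j)))
  refine ⟨Fin d → F, inferInstance, inferInstance, hF.finiteDimensional d, rtF F hst d,
    { toFun := fun e i => ⟨fun g => cr i (ρ g e), hρF i e⟩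
      map_add' := fun e e' => by
        funext i
        refine Subtype.ext (funext fun g => ?_)
        change cr i (ρ g (e + e')) = cr i (ρ g e) + cr i (ρ g e')
        rw [map_add, map_add]
      map_smul' := fun c e => by
        funext i
        refine Subtype.ext (funext fun g => ?_)
        change cr i (ρ g (c • e)) = c • cr i (ρ g e)
        rw [map_smul, map_smul] },
    fun A w i => ⟨fun g => η i A (g * w), hη i A w⟩, tri_pow hF d, ?_, ?_, ?_, ?_⟩
  · -- injectivity
    intro e e' h
    refine b.repr.injective (Finsupp.ext fun i => ?_)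
    have h1 := congrFun (congrArg Subtype.val (congrFun h i)) 1
    change cr i (ρ 1 e) = cr i (ρ 1 e') at h1
    rw [map_one] at h1
    rw [← hcr, ← hcr]
    exact h1
  · -- equivariance
    intro g e
    funext i
    refine Subtype.ext (funext fun x => ?_)
    change cr i (ρ x (ρ g e)) = cr i (ρ (x * g) e)
    rw [map_mul]
    rfl
  · -- the cochain
    refine ⟨fun A hA => ?_, fun A v hv w => ?_, fun A g w => ?_⟩
    · by_contra h
      refine hA (funext fun w => funext fun i => Subtype.ext (funext fun g => ?_))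
      change η i A (g * w) = 0
      have h0 : η i A = 0 := by
        by_contra h0
        exact h (hη1 i A h0)
      rw [h0]
      rfl
    · funext i
      refine Subtype.ext (funext fun g => ?_)
      change η i A (g * (w * R.s v)) = η i A (g * w)
      rw [← mul_assoc, hη2 i A v hv]
    · funext i
      refine Subtype.ext (funext fun x => ?_)
      change η i A (x * (g * w)) = η i A (((x * g : Γ) : W) * w)
      rw [Subgroup.coe_mul, mul_assoc]
  · -- the coboundary
    intro A w
    funext i
    refine Subtype.ext (funext fun g => ?_)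
    change _ = cr i (ρ g (x A w))
    rw [← hx3]
    by_cases hA : G.IsClique (A : Set V)
    · rw [cb, if_pos hA, Finset.sum_apply]
      have e1 : ∀ (s : Finset V) (f : V → F), ((∑ v ∈ s, f v : F) : Γ → K) g =
          ∑ v ∈ s, (f v : Γ → K) g := by
        intro s f
        rw [AddSubmonoidClass.coe_finsetSum, Finset.sum_apply]
      rw [e1]
      change ∑ v ∈ A, (η i (A.erase v) (g * w) + η i (A.erase v) (g * (w * R.s v))) = _
      simp only [← mul_assoc]
      by_cases hk : A.card = k + 1
      · exact hηd i A hA hk (g * w)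
      · rw [hxz A _ fun h => hk h.2, map_zero]
        refine sum_eq_zero fun v hv => ?_
        have h0 : η i (A.erase v) = 0 := by
          by_contra h0
          have h1 := (hη1 i _ h0).2
          rw [card_erase_of_mem hv] at h1
          have h2 := card_pos.2 ⟨v, hv⟩
          omega
        rw [h0]
        simp
    · rw [cb, if_neg hA, hxz A _ fun h => hA h.1, map_zero]
      rfl

end Pool.Agent.S9
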